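import Mathlib

set_option autoImplicit false

namespace Pool.Agent.N959.JetsKnown

open Finset

/-- `I` is a maximal (by inclusion) independent set of `G`. -/
def IsMaxIndep {V : Type*} (G : SimpleGraph V) (I : Finset V) : Prop :=
  Maximal (fun J : Finset V => G.IsIndepSet (J : Set V)) I

/-- `G` is well covered: all maximal independent sets have the same size. -/
def WellCovered {V : Type*} (G : SimpleGraph V) : Prop :=
  ∀ I J : Finset V, IsMaxIndep G I → IsMaxIndep G J → I.card = J.card

/-- `G` is very well covered: no isolated vertices, well covered, and `|V| = 2 α(G)`. -/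
def VeryWellCovered {V : Type*} [Fintype V] (G : SimpleGraph V) : Prop :=
  (∀ v, ∃ w, G.Adj v w) ∧ WellCovered G ∧ Fintype.card V = 2 * G.indepNum

/-- The graph of `s`-jets of `G`: vertices `v_i`, `0 ≤ i ≤ s`; `v_i` and `w_j` are adjacent iff
`v`, `w` are adjacent in `G` and `i + j ≤ s`. -/
def jets {V : Type*} (G : SimpleGraph V) (s : ℕ) : SimpleGraph (V × Fin (s + 1)) where
  Adj a b := G.Adj a.1 b.1 ∧ a.2.val + b.2.val ≤ s
  symm := ⟨fun a b h => ⟨h.1.symm, by rw [add_comm]; exact h.2⟩⟩
  loopless := ⟨fun a h => G.loopless.irrefl a.1 h.1⟩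

section
variable {V : Type*} [Fintype V] {G : SimpleGraph V}

/-- A perfect matching (given by an involution) with Favaron's property. -/
structure Fav (G : SimpleGraph V) (m : V → V) : Prop where
  inv : ∀ v, m (m v) = v
  adj : ∀ v, G.Adj v (m v)
  disj : ∀ v w, G.Adj v w → ¬ G.Adj (m v) w
  comp : ∀ v w u, G.Adj v w → w ≠ m v → G.Adj (m v) u → u ≠ v → G.Adj w u

theorem exists_max {I : Finset V} (h : G.IsIndepSet (I : Set V)) :
    ∃ J, I ⊆ J ∧ IsMaxIndep G J := by
  classical
  obtain ⟨J, h1, h2⟩ := Finite.exists_le_maximal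
    (p := fun J : Finset V => G.IsIndepSet (J : Set V)) h
  exact ⟨J, h1, h2⟩

theorem max_mem {I : Finset V} (h : IsMaxIndep G I) {v : V} (hv : ∀ w ∈ I, ¬ G.Adj v w) :
    v ∈ I := by
  classical
  by_contra hn
  have h1 : G.IsIndepSet ((insert v I : Finset V) : Set V) := by
    intro a ha b hb hab hadj
    simp only [coe_insert, Set.mem_insert_iff, mem_coe] at ha hb
    rcases ha with rfl | ha
    · rcases hb with rfl | hb
      · exact hab rfl
      · exact hv b hb hadj
    · rcases hb with rfl | hb
      · exact hv a ha hadj.symm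
      · exact h.1 ha hb hab hadj
  exact hn (h.2 h1 (Finset.subset_insert v I) (Finset.mem_insert_self v I))

/-- a set with exactly one vertex of each matching edge has half of the vertices -/
theorem card_half {m : V → V} (hm : ∀ v, m (m v) = v) {I : Finset V}
    (h1 : ∀ v, v ∈ I ↔ m v ∉ I) : Fintype.card V = 2 * I.card := by
  classical
  have h2 : (univ.filter (fun v => v ∉ I)) = I.image m := by
    ext v
    simp only [mem_filter, mem_univ, true_and, mem_image]
    constructor
    · intro h
      refine ⟨m v, ?_, hm v⟩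
      rw [h1, hm]; exact h
    · rintro ⟨w, hw, rfl⟩
      exact (h1 w).1 hw
  have h3 : (I.image m).card = I.card :=
    Finset.card_image_of_injective _ (fun a b hab => by
      have := congrArg m hab
      rwa [hm, hm] at this)
  have h4 := Finset.card_filter_add_card_filter_not (s := (univ : Finset V)) (fun v => v ∈ I)
  rw [h2, h3] at h4
  have h5 : (univ.filter (fun v => v ∈ I)) = I := by ext; simp
  rw [h5, Finset.card_univ] at h4
  omega

/-- Favaron's property implies very well covered. -/
theorem vwc_of_fav {m : V → V} (F : Fav G m) : VeryWellCovered G := by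
  classical
  have key : ∀ I : Finset V, IsMaxIndep G I → Fintype.card V = 2 * I.card := by
    intro I hI
    refine card_half F.inv (fun v => ⟨fun hv hmv => ?_, fun hmv => ?_⟩)
    · exact hI.1 hv hmv (F.adj v).ne (F.adj v)
    · by_contra hv
      have e1 : ∃ w ∈ I, G.Adj v w := by
        by_contra hc
        push Not at hc
        exact hv (max_mem hI hc)
      have e2 : ∃ u ∈ I, G.Adj (m v) u := by
        by_contra hc
        push Not at hc
        exact hmv (max_mem hI hc)
      obtain ⟨w, hw, hvw⟩ := e1
      obtain ⟨u, hu, hmu⟩ := e2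
      have hwm : w ≠ m v := fun h => hmv (h ▸ hw)
      have huv : u ≠ v := fun h => hv (h ▸ hu)
      have hadj := F.comp v w u hvw hwm hmu huv
      exact hI.1 hw hu hadj.ne hadj
  refine ⟨fun v => ⟨m v, F.adj v⟩, fun I J hI hJ => ?_, ?_⟩
  · have := key I hI
    have := key J hJ
    omega
  · obtain ⟨I, hI⟩ := G.maximumIndepSet_exists
    have h1 : IsMaxIndep G I := by
      refine ⟨hI.isIndepSet, fun J hJ hIJ => ?_⟩
      have := hI.maximum J hJ
      exact (Finset.eq_of_subset_of_card_le hIJ this).ge
    rw [← G.maximumIndepSet_card_eq_indepNum I hI]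
    exact key I h1

/-- Favaron's property is inherited by the graphs of jets. -/
theorem fav_jets {m : V → V} (F : Fav G m) (s : ℕ) :
    Fav (jets G s) (fun a => (m a.1, Fin.rev a.2)) := by
  have hs : ∀ i : Fin (s + 1), i.val + (Fin.rev i).val = s := by
    intro i
    rw [Fin.val_rev]
    omega
  refine ⟨fun a => ?_, fun a => ?_, fun a b hab => ?_, fun a b c hab hb hac hc => ?_⟩
  · simp [F.inv]
  · exact ⟨F.adj _, (hs a.2).le⟩
  · intro h
    exact F.disj _ _ hab.1 h.1
  · have h1 := hab.2
    have h2 := hac.2
    have h3 := hs a.2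
    simp only at h2
    refine ⟨?_, by omega⟩
    by_cases e1 : b.1 = m a.1
    · rw [e1]
      exact hac.1
    · by_cases e2 : c.1 = a.1
      · rw [e2]
        exact hab.1.symm
      · exact F.comp _ _ _ hab.1 e1 hac.1 e2

/-- Hall's condition in a well covered graph without isolated vertices. -/
theorem hall (h0 : ∀ v, ∃ w, G.Adj v w) (h1 : WellCovered G) [DecidableEq V]
    [DecidableRel G.Adj] (A : Finset V) :
    G.IsIndepSet (A : Set V) → A.card ≤ (A.biUnion (fun v => G.neighborFinset v)).card := by
  classical
  induction A using Finset.strongInduction with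
  | _ A IH =>
  intro hA
  by_contra hlt
  push Not at hlt
  have hne : A.Nonempty := by
    rw [← Finset.card_pos]; omega
  obtain ⟨a, ha⟩ := hne
  set N : Finset V → Finset V := fun B => B.biUnion (fun v => G.neighborFinset v) with hN
  have hNmono : ∀ B C : Finset V, B ⊆ C → N B ⊆ N C := fun B C h => Finset.biUnion_subset_biUnion_of_subset_left _ h
  have hindep : ∀ B : Finset V, B ⊆ A → G.IsIndepSet (B : Set V) := fun B hB =>
    Set.Pairwise.mono (by exact_mod_cast hB) hA
  set A' := A.erase a with hA'
  have hsub : A' ⊆ A := Finset.erase_subset _ _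
  have hcard : A'.card = A.card - 1 := Finset.card_erase_of_mem ha
  have hIH : ∀ B : Finset V, B ⊆ A' → B.card ≤ (N B).card := by
    intro B hB
    refine IH B ?_ (hindep B (hB.trans hsub))
    refine ⟨hB.trans hsub, fun h => ?_⟩
    have := hB (h ha)
    exact (Finset.notMem_erase a A) this
  have e1 : (N A').card ≤ (N A).card := Finset.card_le_card (hNmono _ _ hsub)
  have e2 := hIH A' (Finset.Subset.refl _)
  have e3 : N A' = N A := by
    refine Finset.eq_of_subset_of_card_le (hNmono _ _ hsub) ?_
    have : 0 < A.card := Finset.card_pos.2 ⟨a, ha⟩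
    change (N A).card < A.card at hlt
    omega
  have e4 : (N A).card = A'.card := by
    have : 0 < A.card := Finset.card_pos.2 ⟨a, ha⟩
    change (N A).card < A.card at hlt
    rw [e3] at e2
    omega
  -- matching of A' into N A
  obtain ⟨f, hf1, hf2⟩ := (Finset.all_card_le_biUnion_card_iff_exists_injective
    (fun x : A' => G.neighborFinset (x : V))).1 (by
      intro B
      have := hIH (B.image (fun x : A' => (x : V))) (by
        intro y hy
        obtain ⟨x, _, rfl⟩ := Finset.mem_image.1 hy
        exact x.2)
      rw [Finset.card_image_of_injective _ Subtype.val_injective] at this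
      refine this.trans (Finset.card_le_card ?_)
      rw [hN]
      intro y hy
      simp only [Finset.mem_biUnion, Finset.mem_image] at hy ⊢
      obtain ⟨x, ⟨z, hz, rfl⟩, hy⟩ := hy
      exact ⟨z, hz, hy⟩)
  have hfimg : (univ.image f) = N A := by
    refine Finset.eq_of_subset_of_card_le ?_ ?_
    · intro y hy
      obtain ⟨x, _, rfl⟩ := Finset.mem_image.1 hy
      rw [← e3]
      exact Finset.mem_biUnion.2 ⟨x, x.2, hf2 x⟩
    · rw [Finset.card_image_of_injective _ hf1, e4]
      simp
  obtain ⟨v, hv⟩ := h0 a
  obtain ⟨I, hvI, hI⟩ := exists_max (G := G) (I := {v}) (by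
    simp)
  have hvI : v ∈ I := hvI (by simp)
  -- the exchanged set
  set K := (I \ N A) ∪ A with hK
  have hKindep : G.IsIndepSet (K : Set V) := by
    intro x hx y hy hxy hadj
    simp only [hK, coe_union, coe_sdiff, Set.mem_union, Set.mem_sdiff, mem_coe] at hx hy
    rcases hx with hx | hx <;> rcases hy with hy | hy
    · exact hI.1 hx.1 hy.1 hxy hadj
    · exact hx.2 (Finset.mem_biUnion.2 ⟨y, hy, by simpa using hadj.symm⟩)
    · exact hy.2 (Finset.mem_biUnion.2 ⟨x, hx, by simpa using hadj⟩)
    · exact hA hx hy hxy hadj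
  obtain ⟨L, hKL, hL⟩ := exists_max hKindep
  have c1 : K.card ≤ I.card := by
    rw [h1 I L hI hL]
    exact Finset.card_le_card hKL
  -- count
  have c2 : (I ∩ N A).card + 1 ≤ (A \ I).card := by
    -- injection: f^{-1} of I ∩ N A, together with a
    set B : Finset V := (univ.filter (fun x : A' => f x ∈ I)).image (fun x : A' => (x : V)) with hB
    have b1 : B.card = (I ∩ N A).card := by
      rw [hB, Finset.card_image_of_injective _ Subtype.val_injective,
        ← Finset.card_image_of_injective _ hf1]
      congr 1
      ext y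
      simp only [mem_image, mem_filter, mem_univ, true_and, mem_inter, ← hfimg]
      constructor
      · rintro ⟨x, hx, rfl⟩
        exact ⟨hx, x, rfl⟩
      · rintro ⟨hy, x, rfl⟩
        exact ⟨x, hy, rfl⟩
    have b2 : a ∉ B := by
      intro h
      obtain ⟨x, _, hx⟩ := Finset.mem_image.1 h
      have h5 := x.2
      rw [hx] at h5
      exact (Finset.notMem_erase a A) h5
    have b3 : insert a B ⊆ A \ I := by
      intro y hy
      rcases Finset.mem_insert.1 hy with rfl | hy
      · refine Finset.mem_sdiff.2 ⟨ha, fun h => ?_⟩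
        exact hI.1 h hvI hv.ne hv
      · obtain ⟨x, hx, rfl⟩ := Finset.mem_image.1 hy
        have hfx := hf2 x
        rw [SimpleGraph.mem_neighborFinset] at hfx
        refine Finset.mem_sdiff.2 ⟨hsub x.2, fun h => ?_⟩
        exact hI.1 h (Finset.mem_filter.1 hx).2 hfx.ne hfx
    have := Finset.card_le_card b3
    rw [Finset.card_insert_of_notMem b2, b1] at this
    exact this
  have c3 : K.card = (I \ N A).card + (A \ I).card := by
    have hAN : Disjoint A (N A) := by
      rw [Finset.disjoint_left]
      intro x hx hx2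
      obtain ⟨y, hy, hxy⟩ := Finset.mem_biUnion.1 hx2
      rw [SimpleGraph.mem_neighborFinset] at hxy
      exact hA hy hx hxy.ne hxy
    have : K = (I \ N A) ∪ (A \ I) := by
      ext x
      simp only [hK, mem_union, mem_sdiff]
      constructor
      · rintro (h | h)
        · exact Or.inl h
        · by_cases hx : x ∈ I
          · exact Or.inl ⟨hx, Finset.disjoint_left.1 hAN h⟩
          · exact Or.inr ⟨h, hx⟩
      · rintro (h | h)
        · exact Or.inl h
        · exact Or.inr h.1
    rw [this, Finset.card_union_of_disjoint]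
    rw [Finset.disjoint_left]
    intro x hx hx2
    exact (Finset.mem_sdiff.1 hx2).2 (Finset.mem_sdiff.1 hx).1
  have c4 : (I \ N A).card + (I ∩ N A).card = I.card := Finset.card_sdiff_add_card_inter _ _
  omega

/-- A very well covered graph has a perfect matching with Favaron's property. -/
theorem fav_of_vwc (h : VeryWellCovered G) : ∃ m : V → V, Fav G m := by
  classical
  obtain ⟨h0, h1, h2⟩ := h
  obtain ⟨S, hS⟩ := G.maximumIndepSet_exists
  have hSc : S.card = G.indepNum := G.maximumIndepSet_card_eq_indepNum S hS
  have hSmax : IsMaxIndep G S := by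
    refine ⟨hS.isIndepSet, fun J hJ hIJ => ?_⟩
    have := hS.maximum J hJ
    exact (Finset.eq_of_subset_of_card_le hIJ this).ge
  have hhalf : ∀ I : Finset V, IsMaxIndep G I → Fintype.card V = 2 * I.card := by
    intro I hI
    rw [h1 I S hI hSmax, hSc, h2]
  obtain ⟨f, hf1, hf2⟩ := (Finset.all_card_le_biUnion_card_iff_exists_injective
    (fun x : S => G.neighborFinset (x : V))).1 (by
      intro B
      have := hall h0 h1 (B.image (fun x : S => (x : V))) (Set.Pairwise.mono (by
        intro y hy
        simp only [coe_image, Set.mem_image] at hy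
        obtain ⟨x, _, rfl⟩ := hy
        exact x.2) hS.isIndepSet)
      rw [Finset.card_image_of_injective _ Subtype.val_injective] at this
      refine this.trans (Finset.card_le_card ?_)
      intro y hy
      simp only [Finset.mem_biUnion, Finset.mem_image] at hy ⊢
      obtain ⟨x, ⟨z, hz, rfl⟩, hy⟩ := hy
      exact ⟨z, hz, hy⟩)
  have hfadj : ∀ x : S, G.Adj (x : V) (f x) := fun x => by
    have := hf2 x
    rwa [SimpleGraph.mem_neighborFinset] at this
  have hfS : ∀ x : S, f x ∉ S := fun x hx => hS.isIndepSet x.2 hx (hfadj x).ne (hfadj x)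
  let g : S → {v : V // v ∉ S} := fun x => ⟨f x, hfS x⟩
  have hg : Function.Bijective g := by
    rw [Fintype.bijective_iff_injective_and_card]
    refine ⟨fun x y hxy => hf1 (congrArg Subtype.val hxy), ?_⟩
    have := hhalf S hSmax
    rw [Fintype.card_subtype_compl (fun v => v ∈ S)]
    simp only [Fintype.card_coe]
    omega
  let e : S ≃ {v : V // v ∉ S} := Equiv.ofBijective g hg
  let m : V → V := fun v => if hv : v ∈ S then (e ⟨v, hv⟩ : V) else (e.symm ⟨v, hv⟩ : V)
  have m1 : ∀ (v : V) (hv : v ∈ S), m v = (e ⟨v, hv⟩ : V) := fun v hv => by simp only [m]; rw [dif_pos hv]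
  have m2 : ∀ (v : V) (hv : v ∉ S), m v = (e.symm ⟨v, hv⟩ : V) := fun v hv => by simp only [m]; rw [dif_neg hv]
  have hinv : ∀ v, m (m v) = v := by
    intro v
    by_cases hv : v ∈ S
    · rw [m1 v hv, m2 _ (e ⟨v, hv⟩).2]
      simp
    · rw [m2 v hv, m1 _ (e.symm ⟨v, hv⟩).2]
      simp
  have hadj : ∀ v, G.Adj v (m v) := by
    intro v
    by_cases hv : v ∈ S
    · rw [m1 v hv]
      exact hfadj ⟨v, hv⟩
    · rw [m2 v hv]
      have h3 := hfadj (e.symm ⟨v, hv⟩)
      have h4 : f (e.symm ⟨v, hv⟩) = v := by
        have : g (e.symm ⟨v, hv⟩) = ⟨v, hv⟩ := Equiv.ofBijective_apply_symm_apply g hg ⟨v, hv⟩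
        exact congrArg Subtype.val this
      rw [h4] at h3
      exact h3.symm
  -- every maximal independent set meets every matching edge
  have hmeet : ∀ I : Finset V, IsMaxIndep G I → ∀ v, v ∈ I ∨ m v ∈ I := by
    intro I hI v
    have hinj : Function.Injective m := fun a b hab => by
      have := congrArg m hab
      rwa [hinv, hinv] at this
    have d1 : Disjoint I (I.image m) := by
      rw [Finset.disjoint_left]
      intro x hx hx2
      obtain ⟨y, hy, rfl⟩ := Finset.mem_image.1 hx2
      exact hI.1 hy hx (hadj y).ne (hadj y)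
    have d2 : I ∪ I.image m = univ := by
      rw [← Finset.card_eq_iff_eq_univ, Finset.card_union_of_disjoint d1,
        Finset.card_image_of_injective _ hinj, hhalf I hI]
      omega
    have d3 : v ∈ I ∪ I.image m := by rw [d2]; exact Finset.mem_univ v
    rcases Finset.mem_union.1 d3 with h | h
    · exact Or.inl h
    · obtain ⟨y, hy, rfl⟩ := Finset.mem_image.1 h
      right
      rw [hinv]
      exact hy
  refine ⟨m, hinv, hadj, fun v w hvw hmw => ?_, fun v w u hvw hw hmu hu => ?_⟩
  · obtain ⟨I, hwI, hI⟩ := exists_max (G := G) (I := {w}) (by simp)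
    have hwI : w ∈ I := hwI (by simp)
    rcases hmeet I hI v with h | h
    · exact hI.1 h hwI hvw.ne hvw
    · exact hI.1 h hwI hmw.ne hmw
  · by_contra hn
    have hind : G.IsIndepSet (({w, u} : Finset V) : Set V) := by
      intro x hx y hy hxy hxyadj
      simp only [coe_insert, coe_singleton, Set.mem_insert_iff, Set.mem_singleton_iff] at hx hy
      rcases hx with rfl | rfl <;> rcases hy with rfl | rfl
      · exact hxy rfl
      · exact hn hxyadj
      · exact hn hxyadj.symm
      · exact hxy rfl
    obtain ⟨I, hwI, hI⟩ := exists_max hind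
    have hwI' : w ∈ I := hwI (by simp)
    have huI' : u ∈ I := hwI (by simp)
    rcases hmeet I hI v with h | h
    · exact hI.1 h hwI' hvw.ne hvw
    · exact hI.1 h huI' hmu.ne hmu

end

/-- **Main result.** The graph of `s`-jets of a very well covered graph is very well covered. -/
theorem result : ∀ (V : Type) [Fintype V] (G : SimpleGraph V), VeryWellCovered G →
    ∀ s : ℕ, VeryWellCovered (jets G s) := by
  intro V _ G h s
  obtain ⟨m, hm⟩ := fav_of_vwc h
  exact vwc_of_fav (fav_jets hm s)

end Pool.Agent.N959.JetsKnown
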